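import Pool.Agent.Y245.SG.Stm

/-!
# Project SG: Siegel's lemma
-/

set_option autoImplicit false

namespace Pool.Agent.Y759.SG

open Polynomial Pool.Agent.Y245.SG

/-- the arithmetic of a product of `a` of the series `bs 0`, `bs 1` -/
def Q (a : ℕ) (f : PowerSeries ℚ) : Prop := ∀ m : ℕ,
  (∃ c : ℤ, PowerSeries.coeff m f * ((m.factorial : ℚ) * ((m + a).factorial : ℚ)) = c) ∧
  |PowerSeries.coeff m f| * (m.factorial : ℚ) ^ 2 ≤ (a : ℚ) ^ (2 * m)

theorem Q_one : Q 0 1 := by
  intro m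
  rw [PowerSeries.coeff_one]
  by_cases hm : m = 0
  · subst hm
    exact ⟨⟨1, by simp⟩, by simp⟩
  · refine ⟨⟨0, by simp [hm]⟩, by simp [hm]⟩

theorem int_fac (a ε k l : ℕ) (hε : ε ≤ 1) :
    ∃ d : ℕ, ((k + l).factorial : ℚ) * ((k + l + (a + 1)).factorial : ℚ) =
      d * (((k.factorial : ℚ) * ((k + a).factorial : ℚ)) *
        ((l.factorial : ℚ) * ((l + ε).factorial : ℚ))) := by
  obtain ⟨d1, hd1⟩ := Nat.factorial_mul_factorial_dvd_factorial_add k l
  obtain ⟨d2, hd2⟩ := (Nat.factorial_mul_factorial_dvd_factorial_add (k + a) (l + ε)).trans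
    (Nat.factorial_dvd_factorial (show k + a + (l + ε) ≤ k + l + (a + 1) by omega))
  refine ⟨d1 * d2, ?_⟩
  rw [hd1, hd2]
  push_cast
  ring

theorem sum_choose (a m : ℕ) :
    ∑ p ∈ Finset.HasAntidiagonal.antidiagonal m, ((m.choose p.1 : ℚ) * (a : ℚ) ^ p.1) ^ 2 ≤
      ((a : ℚ) + 1) ^ (2 * m) := by
  have h1 : ∑ p ∈ Finset.HasAntidiagonal.antidiagonal m, ((m.choose p.1 : ℚ) * (a : ℚ) ^ p.1) =
      ((a : ℚ) + 1) ^ m := by
    rw [Commute.add_pow' (Commute.all _ _)]
    refine Finset.sum_congr rfl fun p _ => ?_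
    rw [one_pow, mul_one, nsmul_eq_mul]
  rw [mul_comm 2 m, pow_mul, ← h1]
  exact Finset.sum_sq_le_sq_sum_of_nonneg (fun p _ => by positivity)

theorem Q_mul {a : ℕ} {f : PowerSeries ℚ} (hf : Q a f) {ε : ℕ} (hε : ε ≤ 1) :
    Q (a + 1) (f * bs ε) := by
  intro m
  rw [PowerSeries.coeff_mul]
  constructor
  · have h1 : ∀ p ∈ Finset.HasAntidiagonal.antidiagonal m, ∃ c : ℤ,
        PowerSeries.coeff p.1 f * PowerSeries.coeff p.2 (bs ε) *
          ((m.factorial : ℚ) * ((m + (a + 1)).factorial : ℚ)) = c := by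
      intro p hp
      obtain ⟨c, hc⟩ := (hf p.1).1
      obtain ⟨d, hd⟩ := int_fac a ε p.1 p.2 hε
      rw [Finset.HasAntidiagonal.mem_antidiagonal] at hp
      refine ⟨c * d * (-1) ^ p.2, ?_⟩
      rw [← hp, hd, bs, PowerSeries.coeff_mk]
      push_cast
      rw [← hc]
      have h2 : (p.2.factorial : ℚ) ≠ 0 := by positivity
      have h3 : ((p.2 + ε).factorial : ℚ) ≠ 0 := by positivity
      field_simp
    choose! c hc using h1
    refine ⟨∑ p ∈ Finset.HasAntidiagonal.antidiagonal m, c p, ?_⟩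
    rw [Finset.sum_mul]
    push_cast
    exact Finset.sum_congr rfl hc
  · refine le_trans ?_ ((sum_choose a m).trans (le_of_eq (by push_cast; rfl)))
    refine le_trans (mul_le_mul_of_nonneg_right (Finset.abs_sum_le_sum_abs _ _) (by positivity)) ?_
    rw [Finset.sum_mul]
    refine Finset.sum_le_sum fun p hp => ?_
    rw [Finset.HasAntidiagonal.mem_antidiagonal] at hp
    have h1 := (hf p.1).2
    have h2 : |PowerSeries.coeff p.2 (bs ε)| * (p.2.factorial : ℚ) ^ 2 ≤ 1 := by
      rw [bs, PowerSeries.coeff_mk, abs_div, abs_pow, abs_neg, abs_one, one_pow,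
        abs_of_nonneg (by positivity), div_mul_eq_mul_div, one_mul, div_le_one (by positivity),
        pow_two]
      have : (p.2.factorial : ℚ) ≤ ((p.2 + ε).factorial : ℚ) := by
        exact_mod_cast Nat.factorial_le (Nat.le_add_right _ _)
      exact mul_le_mul_of_nonneg_left this (by positivity)
    have h3 : (m.factorial : ℚ) = (m.choose p.1 : ℚ) * (p.1.factorial : ℚ) * (p.2.factorial : ℚ) := by
      rw [← hp]
      rw [Nat.choose_symm_add]
      exact_mod_cast (Nat.add_choose_mul_factorial_mul_factorial p.1 p.2).symm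
    rw [abs_mul, h3, mul_pow ((m.choose p.1 : ℚ)) ((a : ℚ) ^ p.1), ← pow_mul, mul_comm p.1 2]
    have h4 : |PowerSeries.coeff p.1 f| * |PowerSeries.coeff p.2 (bs ε)| *
        ((m.choose p.1 : ℚ) * (p.1.factorial : ℚ) * (p.2.factorial : ℚ)) ^ 2 =
        (m.choose p.1 : ℚ) ^ 2 * ((|PowerSeries.coeff p.1 f| * (p.1.factorial : ℚ) ^ 2) *
          (|PowerSeries.coeff p.2 (bs ε)| * (p.2.factorial : ℚ) ^ 2)) := by
      ring
    rw [h4]
    refine mul_le_mul_of_nonneg_left ?_ (by positivity)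
    calc _ ≤ (a : ℚ) ^ (2 * p.1) * 1 := mul_le_mul h1 h2 (by positivity) (by positivity)
      _ = _ := mul_one _

theorem Q_pow (i j : ℕ) : Q (i + j) (bs 0 ^ i * bs 1 ^ j) := by
  induction j with
  | zero =>
    induction i with
    | zero => simpa using Q_one
    | succ i ih =>
      have := Q_mul ih (ε := 0) (by norm_num)
      rw [show i + 1 + 0 = i + 0 + 1 by ring,
        show bs 0 ^ (i + 1) * bs 1 ^ 0 = bs 0 ^ i * bs 1 ^ 0 * bs 0 by ring]
      exact this
  | succ j ih =>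
    have := Q_mul ih (ε := 1) (by norm_num)
    rw [show i + (j + 1) = i + j + 1 by ring,
      show bs 0 ^ i * bs 1 ^ (j + 1) = bs 0 ^ i * bs 1 ^ j * bs 1 by ring]
    exact this

theorem Q_int {N : ℕ} {f : PowerSeries ℚ} (hf : Q N f) (m : ℕ) :
    ∃ c : ℤ, PowerSeries.coeff m f * ((m.factorial : ℚ) * ((m + N).factorial : ℚ)) = c ∧
      |(c : ℝ)| ≤ (N : ℝ) ^ (2 * m) * (2 ^ (m + N) * N.factorial) := by
  obtain ⟨⟨c, hc⟩, h2⟩ := hf m
  refine ⟨c, hc, ?_⟩
  have h3 : |(c : ℚ)| ≤ (N : ℚ) ^ (2 * m) * (2 ^ (m + N) * N.factorial) := by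
    rw [← hc, abs_mul, abs_of_nonneg (a := (m.factorial : ℚ) * ((m + N).factorial : ℚ))
      (by positivity)]
    have h4 : ((m + N).factorial : ℚ) = ((m + N).choose N : ℚ) * (m.factorial : ℚ) *
        (N.factorial : ℚ) := by
      exact_mod_cast (Nat.add_choose_mul_factorial_mul_factorial m N).symm
    have h5 : ((m + N).choose N : ℚ) ≤ 2 ^ (m + N) := by
      exact_mod_cast Nat.choose_le_two_pow (m + N) N
    rw [h4]
    calc _ = (|PowerSeries.coeff m f| * (m.factorial : ℚ) ^ 2) *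
          (((m + N).choose N : ℚ) * (N.factorial : ℚ)) := by ring
      _ ≤ _ := by
        refine mul_le_mul h2 (mul_le_mul_of_nonneg_right h5 (by positivity)) (by positivity)
          (by positivity)
  exact_mod_cast h3

theorem siegel_abs {α β : Type} [Fintype α] [Fintype β] (A : Matrix α β ℤ)
    (h1 : Fintype.card α < Fintype.card β) (h2 : 0 < Fintype.card α) (C : ℝ) (hC : 1 ≤ C)
    (hA : ∀ i j, |(A i j : ℝ)| ≤ C) (e : ℕ)
    (he : (Fintype.card α : ℝ) / ((Fintype.card β : ℝ) - Fintype.card α) ≤ e) :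
    ∃ t : β → ℤ, t ≠ 0 ∧ A.mulVec t = 0 ∧ ∀ j, |(t j : ℝ)| ≤ (Fintype.card β * C) ^ e := by
  letI : SeminormedAddCommGroup (Matrix α β ℤ) := Matrix.seminormedAddCommGroup
  obtain ⟨t, ht0, ht1, ht2⟩ := Int.Matrix.exists_ne_zero_int_vec_norm_le A h1 h2
  refine ⟨t, ht0, ht1, fun j => ?_⟩
  have h3 : ‖A‖ ≤ C := by
    rw [Matrix.norm_le_iff (by linarith)]
    intro i j
    rw [Int.norm_eq_abs]
    exact hA i j
  have h4 : (1 : ℝ) ≤ Fintype.card β := by
    exact_mod_cast (show 1 ≤ Fintype.card β by omega)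
  have h5 : (1 : ℝ) ≤ Fintype.card β * C := by nlinarith
  calc |(t j : ℝ)| = ‖t j‖ := (Int.norm_eq_abs _).symm
    _ ≤ ‖t‖ := norm_le_pi_norm t j
    _ ≤ _ := ht2
    _ ≤ ((Fintype.card β : ℝ) * C) ^ ((Fintype.card α : ℝ) /
        ((Fintype.card β : ℝ) - Fintype.card α)) := by
      apply Real.rpow_le_rpow (by positivity)
      · exact mul_le_mul_of_nonneg_left (max_le hC h3) (by positivity)
      · have : (Fintype.card α : ℝ) < Fintype.card β := by exact_mod_cast h1
        apply div_nonneg (by positivity)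
        linarith
    _ ≤ ((Fintype.card β : ℝ) * C) ^ (e : ℝ) := Real.rpow_le_rpow_of_exponent_le h5 he
    _ = _ := Real.rpow_natCast _ _

theorem sum_trunc (F : ℕ → ℤ) (n j : ℕ) (h : ∀ k, n < k → F k = 0) :
    ∑ k ∈ Finset.range (n + 1), (if k ≤ j then F k else 0) = ∑ k ∈ Finset.range (j + 1), F k := by
  rw [← Finset.sum_filter]
  apply Finset.sum_subset
  · intro k hk
    rw [Finset.mem_filter] at hk
    rw [Finset.mem_range]
    omega
  · intro k hk1 hk2
    apply h
    rw [Finset.mem_filter, Finset.mem_range] at hk2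
    rw [Finset.mem_range] at hk1
    by_contra h
    exact hk2 ⟨by omega, by omega⟩

/-- bound for the entries -/
theorem entry_bound (N n j k : ℕ) (hN : 1 ≤ N) (hn : 1 ≤ n) (hj : j ≤ (N + 1) * (n + 1)) (c : ℤ)
    (hc : |(c : ℝ)| ≤ (N : ℝ) ^ (2 * (j - k)) * (2 ^ (j - k + N) * N.factorial)) :
    |((if k ≤ j then (j.choose k : ℤ) * ((j + N).choose k : ℤ) * c else 0 : ℤ) : ℝ)| ≤
      ((8 * (N : ℝ) ^ 2) ^ (2 * (N + 1)) * (4 ^ N * N.factorial)) ^ n := by
  have hN' : (1 : ℝ) ≤ N := by exact_mod_cast hN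
  have hf : (1 : ℝ) ≤ N.factorial := by exact_mod_cast Nat.factorial_pos N
  have h4 : (1 : ℝ) ≤ 4 ^ N := one_le_pow₀ (by norm_num)
  have h8 : (1 : ℝ) ≤ 8 * (N : ℝ) ^ 2 := by nlinarith
  have hK : (1 : ℝ) ≤ (8 * (N : ℝ) ^ 2) ^ (2 * (N + 1)) * (4 ^ N * N.factorial) :=
    one_le_mul_of_one_le_of_one_le (one_le_pow₀ h8) (one_le_mul_of_one_le_of_one_le h4 hf)
  split_ifs with hk
  · have h1 : ((j.choose k : ℕ) : ℝ) ≤ 2 ^ j := by exact_mod_cast Nat.choose_le_two_pow j k
    have h2 : (((j + N).choose k : ℕ) : ℝ) ≤ 2 ^ (j + N) := by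
      exact_mod_cast Nat.choose_le_two_pow (j + N) k
    have h3 : |(c : ℝ)| ≤ (N : ℝ) ^ (2 * j) * (2 ^ (j + N) * N.factorial) := by
      refine hc.trans (mul_le_mul ?_ (mul_le_mul_of_nonneg_right ?_ (by positivity))
        (by positivity) (by positivity))
      · exact pow_le_pow_right₀ hN' (by omega)
      · exact pow_le_pow_right₀ (by norm_num) (by omega)
    push_cast
    rw [abs_mul, abs_mul, abs_of_nonneg (a := ((j.choose k : ℕ) : ℝ)) (by positivity),
      abs_of_nonneg (a := (((j + N).choose k : ℕ) : ℝ)) (by positivity)]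
    calc _ ≤ (2 : ℝ) ^ j * 2 ^ (j + N) * ((N : ℝ) ^ (2 * j) * (2 ^ (j + N) * N.factorial)) :=
          mul_le_mul (mul_le_mul h1 h2 (by positivity) (by positivity)) h3 (by positivity)
            (by positivity)
      _ = (8 * (N : ℝ) ^ 2) ^ j * (4 ^ N * N.factorial) := by
        rw [mul_pow, ← pow_mul, show (8 : ℝ) = 2 ^ 3 by norm_num, show (4 : ℝ) = 2 ^ 2 by norm_num,
          ← pow_mul, ← pow_mul, mul_comm 2 j]
        ring
      _ ≤ (8 * (N : ℝ) ^ 2) ^ (2 * (N + 1) * n) * (4 ^ N * N.factorial) ^ n := by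
        refine mul_le_mul (pow_le_pow_right₀ h8 ?_)
          (le_self_pow₀ (one_le_mul_of_one_le_of_one_le h4 hf) (by omega)) (by positivity)
          (by positivity)
        nlinarith
      _ = _ := by rw [mul_pow ((8 * (N : ℝ) ^ 2) ^ (2 * (N + 1))), ← pow_mul]
  · rw [Int.cast_zero, abs_zero]
    positivity

/-- Siegel's lemma -/
theorem sieg : S_SIEG := by
  intro N s hN hs
  have hc : ∀ i m : ℕ, ∃ c : ℤ,
      (i ≤ N → PowerSeries.coeff m (bs 0 ^ i * bs 1 ^ (N - i)) *
        ((m.factorial : ℚ) * ((m + N).factorial : ℚ)) = c) ∧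
      |(c : ℝ)| ≤ (N : ℝ) ^ (2 * m) * (2 ^ (m + N) * N.factorial) := by
    intro i m
    by_cases hi : i ≤ N
    · have h1 := Q_pow i (N - i)
      rw [Nat.add_sub_cancel' hi] at h1
      obtain ⟨c, hc1, hc2⟩ := Q_int h1 m
      exact ⟨c, fun _ => hc1, hc2⟩
    · refine ⟨0, fun h => absurd h hi, ?_⟩
      rw [Int.cast_zero, abs_zero]
      positivity
  choose c hc1 hc2 using hc
  have hN' : (1 : ℝ) ≤ N := by exact_mod_cast hN
  have hf : (1 : ℝ) ≤ N.factorial := by exact_mod_cast Nat.factorial_pos N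
  have h4 : (1 : ℝ) ≤ 4 ^ N := one_le_pow₀ (by norm_num)
  have h8 : (1 : ℝ) ≤ 8 * (N : ℝ) ^ 2 := by nlinarith
  have hK : (1 : ℝ) ≤ (8 * (N : ℝ) ^ 2) ^ (2 * (N + 1)) * (4 ^ N * N.factorial) :=
    one_le_mul_of_one_le_of_one_le (one_le_pow₀ h8) (one_le_mul_of_one_le_of_one_le h4 hf)
  set K0 : ℝ := (8 * (N : ℝ) ^ 2) ^ (2 * (N + 1)) * (4 ^ N * N.factorial) with hK0
  refine ⟨(4 * ((N : ℝ) + 1) * K0) ^ (2 * s * (N + 1)), one_le_pow₀ (by nlinarith), fun n hn => ?_⟩
  have hns : n / s ≤ n := Nat.div_le_self n s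
  have hU : n / s + 1 ≤ (N + 1) * (n + 1) := by nlinarith
  have hT0 : 0 < TT N s n := by
    unfold TT
    have : n + 1 < (N + 1) * (n + 1) := by nlinarith
    omega
  have hTU : TT N s n + (n / s + 1) = (N + 1) * (n + 1) := by
    unfold TT
    omega
  have hTlt : TT N s n < (N + 1) * (n + 1) := by
    rw [← hTU]
    exact Nat.lt_add_of_pos_right (Nat.succ_pos _)
  have hTe : ((TT N s n : ℕ) : ℝ) + ((n / s + 1 : ℕ) : ℝ) = ((N : ℝ) + 1) * ((n : ℝ) + 1) := by
    exact_mod_cast hTU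
  obtain ⟨t, ht0, ht1, ht2⟩ := siegel_abs
    (Matrix.of fun (j : Fin (TT N s n)) (p : Fin (N + 1) × Fin (n + 1)) =>
      if (p.2 : ℕ) ≤ (j : ℕ) then (((j : ℕ).choose p.2 : ℕ) : ℤ) *
        ((((j : ℕ) + N).choose p.2 : ℕ) : ℤ) * c p.1 (j - p.2) else 0)
    (by
      rw [Fintype.card_fin, Fintype.card_prod, Fintype.card_fin, Fintype.card_fin]
      exact hTlt)
    (by rwa [Fintype.card_fin]) (K0 ^ n) (one_le_pow₀ hK)
    (fun j p => by
      rw [Matrix.of_apply]
      exact entry_bound N n j p.2 hN hn (j.2.trans hTlt).le _ (hc2 _ _))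
    (2 * s * (N + 1))
    (by
      rw [Fintype.card_fin, Fintype.card_prod, Fintype.card_fin, Fintype.card_fin]
      push_cast
      have h1 : ((N : ℝ) + 1) * ((n : ℝ) + 1) - ((TT N s n : ℕ) : ℝ) = ((n / s + 1 : ℕ) : ℝ) := by
        linarith
      rw [h1, div_le_iff₀ (by positivity)]
      have h2 : n < s * (n / s + 1) := Nat.lt_mul_div_succ n (by omega)
      have h3 : TT N s n ≤ 2 * s * (N + 1) * (n / s + 1) := by
        have h4 : TT N s n ≤ (N + 1) * (n + 1) := hTlt.le
        have h5 : (N + 1) * (n + 1) ≤ (N + 1) * (2 * (s * (n / s + 1))) :=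
          Nat.mul_le_mul_left _ (by omega)
        calc _ ≤ _ := h4
          _ ≤ _ := h5
          _ = _ := by ring
      exact_mod_cast h3)
  rw [Fintype.card_prod, Fintype.card_fin, Fintype.card_fin] at ht2
  -- the solution as a function on ℕ × ℕ
  set tt : ℕ → ℕ → ℤ := fun i k =>
    if h : i < N + 1 ∧ k < n + 1 then t (⟨i, h.1⟩, ⟨k, h.2⟩) else 0 with htt
  have htt1 : ∀ (i : Fin (N + 1)) (k : Fin (n + 1)), tt i k = t (i, k) := by
    intro i k
    simp only [htt]
    rw [dif_pos ⟨i.2, k.2⟩]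
  have htt2 : ∀ i k, N < i → tt i k = 0 := by
    intro i k h
    simp only [htt]
    rw [dif_neg (by omega)]
  have htt3 : ∀ i k, n < k → tt i k = 0 := by
    intro i k h
    simp only [htt]
    rw [dif_neg (by omega)]
  have htt4 : ∀ i k, |(tt i k : ℝ)| ≤ ((4 * ((N : ℝ) + 1) * K0) ^ (2 * s * (N + 1))) ^ n := by
    intro i k
    by_cases h : i < N + 1 ∧ k < n + 1
    · have h1 := htt1 ⟨i, h.1⟩ ⟨k, h.2⟩
      simp only at h1
      rw [h1]
      refine (ht2 _).trans ?_
      rw [← pow_mul, mul_comm (2 * s * (N + 1)) n, pow_mul _ n, mul_pow _ K0]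
      apply pow_le_pow_left₀ (by positivity)
      apply mul_le_mul_of_nonneg_right _ (by positivity)
      have h2 : n + 1 ≤ 2 ^ n := Nat.lt_two_pow_self
      have h3 : (N + 1) * (n + 1) ≤ (4 * (N + 1)) ^ n := by
        rw [mul_pow]
        calc (N + 1) * (n + 1) ≤ (N + 1) ^ n * 2 ^ n :=
              Nat.mul_le_mul (Nat.le_self_pow (by omega) _) h2
          _ ≤ (N + 1) ^ n * 4 ^ n := Nat.mul_le_mul_left _ (Nat.pow_le_pow_left (by norm_num) n)
          _ = _ := mul_comm _ _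
      exact_mod_cast h3
    · have h1 : tt i k = 0 := by
        simp only [htt]
        rw [dif_neg h]
      rw [h1, Int.cast_zero, abs_zero]
      positivity
  set P : ℕ → ℤ[X] := fun i => ∑ k ∈ Finset.range (n + 1),
    C (tt i k * ((n.factorial / k.factorial : ℕ) : ℤ) ^ 2) * X ^ k with hP
  have hPc : ∀ i l, (P i).coeff l = tt i l * ((n.factorial / l.factorial : ℕ) : ℤ) ^ 2 := by
    intro i l
    rw [hP]
    simp only
    rw [Polynomial.finset_sum_coeff]
    simp only [Polynomial.coeff_C_mul_X_pow]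
    rw [Finset.sum_ite_eq]
    split_ifs with h
    · rfl
    · rw [Finset.mem_range] at h
      rw [htt3 i l (by omega), zero_mul]
  have hfac : ∀ k, k ≤ n → ((n.factorial / k.factorial : ℕ) : ℝ) = (n.factorial : ℝ) / k.factorial := by
    intro k hk
    rw [Nat.cast_div (Nat.factorial_dvd_factorial hk) (by positivity)]
  refine ⟨P, ?_, ?_, ?_, ?_, ?_⟩
  · intro i hi
    ext l
    rw [hPc, htt2 i l hi, zero_mul, Polynomial.coeff_zero]
  · obtain ⟨p, hp⟩ := Function.ne_iff.1 ht0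
    refine ⟨p.1, by have := p.1.2; omega, fun h0 => ?_⟩
    have h1 := hPc p.1 p.2
    rw [h0, Polynomial.coeff_zero, htt1] at h1
    have h2 : 0 < n.factorial / (p.2 : ℕ).factorial :=
      Nat.div_pos (Nat.factorial_le (by have := p.2.2; omega)) (Nat.factorial_pos _)
    have h3 : ((n.factorial / (p.2 : ℕ).factorial : ℕ) : ℤ) ^ 2 ≠ 0 := by positivity
    rcases mul_eq_zero.1 h1.symm with h | h
    · exact hp h
    · exact h3 h
  · intro i
    rw [Polynomial.natDegree_le_iff_coeff_eq_zero]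
    intro l hl
    rw [hPc, htt3 i l hl, zero_mul]
  · intro i k hk
    rw [hPc, Int.cast_mul, Int.cast_pow, Int.cast_natCast]
    rw [abs_mul, abs_of_nonneg (a := (((n.factorial / k.factorial : ℕ) : ℝ)) ^ 2) (by positivity),
      hfac k hk]
    exact mul_le_mul_of_nonneg_right (htt4 i k) (by positivity)
  · rw [PowerSeries.X_pow_dvd_iff]
    intro j hj
    have e1 : PowerSeries.coeff j (LamF N P) * ((j.factorial : ℚ) * ((j + N).factorial : ℚ)) =
        (n.factorial : ℚ) ^ 2 * ((∑ i ∈ Finset.range (N + 1), ∑ k ∈ Finset.range (j + 1),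
          ((j.choose k : ℕ) : ℤ) * (((j + N).choose k : ℕ) : ℤ) * c i (j - k) * tt i k : ℤ) : ℚ) := by
      unfold LamF
      rw [map_sum, Finset.sum_mul]
      push_cast
      rw [Finset.mul_sum]
      refine Finset.sum_congr rfl fun i hi => ?_
      rw [mul_assoc (((P i).map (Int.castRingHom ℚ) : ℚ[X]) : PowerSeries ℚ), PowerSeries.coeff_mul,
        Finset.Nat.sum_antidiagonal_eq_sum_range_succ
          (fun a b => PowerSeries.coeff a (((P i).map (Int.castRingHom ℚ) : ℚ[X]) : PowerSeries ℚ) *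
            PowerSeries.coeff b (bs 0 ^ i * bs 1 ^ (N - i))), Finset.sum_mul, Finset.mul_sum]
      refine Finset.sum_congr rfl fun k hk => ?_
      rw [Finset.mem_range] at hi hk
      rw [Polynomial.coeff_coe, Polynomial.coeff_map, hPc]
      by_cases hkn : k ≤ n
      · have h1 := hc1 i (j - k) (by omega)
        have h2 : ((n.factorial / k.factorial : ℕ) : ℚ) = (n.factorial : ℚ) / k.factorial := by
          rw [Nat.cast_div (Nat.factorial_dvd_factorial hkn) (by positivity)]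
        have h3 : (j.factorial : ℚ) = (j.choose k : ℚ) * (k.factorial : ℚ) *
            ((j - k).factorial : ℚ) := by
          exact_mod_cast (Nat.choose_mul_factorial_mul_factorial (show k ≤ j by omega)).symm
        have h4 : ((j + N).factorial : ℚ) = ((j + N).choose k : ℚ) * (k.factorial : ℚ) *
            ((j - k + N).factorial : ℚ) := by
          have h5 := (Nat.choose_mul_factorial_mul_factorial (show k ≤ j + N by omega)).symm
          rw [show j + N - k = j - k + N by omega] at h5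
          exact_mod_cast h5
        rw [eq_intCast, Int.cast_mul, Int.cast_pow, Int.cast_natCast, h2, ← h1, h3, h4]
        have h6 : (k.factorial : ℚ) ≠ 0 := by positivity
        field_simp
      · rw [htt3 i k (by omega), zero_mul]
        simp
    have e2 : ∑ i ∈ Finset.range (N + 1), ∑ k ∈ Finset.range (j + 1),
          ((j.choose k : ℕ) : ℤ) * (((j + N).choose k : ℕ) : ℤ) * c i (j - k) * tt i k = 0 := by
      have h1 := congrFun ht1 ⟨j, hj⟩
      rw [Matrix.mulVec, dotProduct, Fintype.sum_prod_type] at h1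
      rw [Finset.sum_range]
      refine Eq.trans (Finset.sum_congr rfl fun i _ => ?_) h1
      rw [← sum_trunc _ n j (fun k hk => by rw [htt3 _ k hk, mul_zero]), Finset.sum_range]
      refine Finset.sum_congr rfl fun k _ => ?_
      rw [htt1]
      simp only [Matrix.of_apply]
      split_ifs
      · rfl
      · rw [zero_mul]
    rw [e2, Int.cast_zero, mul_zero] at e1
    rcases mul_eq_zero.1 e1 with h | h
    · exact h
    · exfalso
      have : (0 : ℚ) < (j.factorial : ℚ) * ((j + N).factorial : ℚ) := by positivity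
      exact absurd h this.ne'

end Pool.Agent.Y759.SG
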